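import Pool.Agent.N236.RT.Stm

/-!
# Project RT (helper236): zeros of polynomials supported on a line (COL)
-/

set_option autoImplicit false

namespace Pool.Agent.N546.RT

open MvPolynomial Module
open Pool.Agent.N236.RT

theorem ev_eq {K : Type} [Field K] [NumberField K] (x y : K) (F : Pol ℚ) :
    ev x y F = ∑ m ∈ F.support, algebraMap ℚ K (coeff m F) * (x ^ m 0 * y ^ m 1) := by
  unfold ev
  rw [aeval_def, eval₂_eq']
  refine Finset.sum_congr rfl fun m _ => ?_
  rw [Fin.prod_univ_two]
  simp

theorem t_col : S_COL := by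
  classical
  intro K _ _ F a b x y hF hCol hBd hx hy hev
  obtain ⟨u, v, w, huv, hl⟩ := hCol
  -- Bezout
  set d : ℤ := (Int.gcd u v : ℤ) with hd
  have hd0 : d ≠ 0 := by
    intro h
    have h1 : Int.gcd u v = 0 := by
      rw [hd] at h
      exact_mod_cast h
    rw [Int.gcd_eq_zero_iff] at h1
    exact huv (Prod.ext h1.1 h1.2)
  obtain ⟨u', hu'⟩ : d ∣ u := Int.gcd_dvd_left ..
  obtain ⟨v', hv'⟩ : d ∣ v := Int.gcd_dvd_right ..
  set α : ℤ := Int.gcdA u v with hα
  set β : ℤ := Int.gcdB u v with hβ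
  have hbez : α * u' + β * v' = 1 := by
    have h1 : d = u * α + v * β := Int.gcd_eq_gcd_ab u v
    have h2 : d * (α * u' + β * v') = d * 1 := by
      calc d * (α * u' + β * v') = (d * u') * α + (d * v') * β := by ring
        _ = u * α + v * β := by rw [← hu', ← hv']
        _ = d * 1 := by rw [mul_one]; exact h1.symm
    exact mul_left_cancel₀ hd0 h2
  have hline : ∀ m ∈ F.support, ∀ m' ∈ F.support,
      u' * ((m 0 : ℤ) - m' 0) + v' * ((m 1 : ℤ) - m' 1) = 0 := by
    intro m hm m' hm'
    have h1 := hl m hm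
    have h2 := hl m' hm'
    have h3 : d * (u' * ((m 0 : ℤ) - m' 0) + v' * ((m 1 : ℤ) - m' 1)) = d * 0 := by
      calc d * (u' * ((m 0 : ℤ) - m' 0) + v' * ((m 1 : ℤ) - m' 1))
          = (d * u') * m 0 + (d * v') * m 1 - ((d * u') * m' 0 + (d * v') * m' 1) := by ring
        _ = d * 0 := by rw [← hu', ← hv', h1, h2]; ring
    exact mul_left_cancel₀ hd0 h3
  set ka : (Fin 2 →₀ ℕ) → ℤ := fun m => β * m 0 - α * m 1 with hka
  have hk0 : ∀ m ∈ F.support, ∀ m' ∈ F.support, (m 0 : ℤ) - m' 0 = (ka m - ka m') * v' := by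
    intro m hm m' hm'
    have h := hline m hm m' hm'
    simp only [hka]
    linear_combination (-((m 0 : ℤ) - m' 0)) * hbez + α * h
  have hk1 : ∀ m ∈ F.support, ∀ m' ∈ F.support, (m 1 : ℤ) - m' 1 = (ka m - ka m') * (-u') := by
    intro m hm m' hm'
    have h := hline m hm m' hm'
    simp only [hka]
    linear_combination (-((m 1 : ℤ) - m' 1)) * hbez + β * h
  have hinj : ∀ m ∈ F.support, ∀ m' ∈ F.support, ka m = ka m' → m = m' := by
    intro m hm m' hm' h
    have h0 := hk0 m hm m' hm'
    have h1 := hk1 m hm m' hm'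
    rw [h, sub_self, zero_mul] at h0 h1
    ext i
    fin_cases i
    · simp only [Fin.zero_eta, Fin.isValue]
      omega
    · simp only [Fin.mk_one, Fin.isValue]
      omega
  have hne : F.support.Nonempty := by
    rw [Finset.nonempty_iff_ne_empty]
    intro h
    exact hF (support_eq_empty.1 h)
  obtain ⟨m0, hm0, hmin⟩ := Finset.exists_min_image F.support ka hne
  obtain ⟨me, hme, hmax⟩ := Finset.exists_max_image F.support ka hne
  set e : ℕ := (ka me - ka m0).toNat with he
  have he' : (e : ℤ) = ka me - ka m0 := Int.toNat_of_nonneg (by linarith [hmin me hme])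
  set nn : (Fin 2 →₀ ℕ) → ℕ := fun m => (ka m - ka m0).toNat with hnn
  have hnn' : ∀ m ∈ F.support, (nn m : ℤ) = ka m - ka m0 := fun m hm =>
    Int.toNat_of_nonneg (by linarith [hmin m hm])
  have hnne : ∀ m ∈ F.support, nn m ≤ e := by
    intro m hm
    have h1 := hnn' m hm
    have h2 := hmax m hm
    omega
  set z : K := x ^ v' * y ^ (-u') with hz
  set g : Polynomial ℚ := ∑ m ∈ F.support, Polynomial.monomial (nn m) (coeff m F) with hg
  have hdeg : g.natDegree ≤ e := by
    refine Polynomial.natDegree_sum_le_of_forall_le _ _ fun m hm => ?_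
    exact (Polynomial.natDegree_monomial_le _).trans (hnne m hm)
  have hcoeff : g.coeff 0 = coeff m0 F := by
    rw [hg, Polynomial.finsetSum_coeff, Finset.sum_eq_single m0]
    · rw [Polynomial.coeff_monomial, if_pos]
      simp [hnn]
    · intro m hm hne'
      rw [Polynomial.coeff_monomial, if_neg]
      intro h
      apply hne'
      refine hinj m hm m0 hm0 ?_
      have := hnn' m hm
      rw [h] at this
      push_cast at this
      linarith
    · intro h
      exact absurd hm0 h
  have hg0 : g ≠ 0 := by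
    intro h
    rw [h, Polynomial.coeff_zero] at hcoeff
    exact (mem_support_iff.1 hm0) hcoeff.symm
  have haev : x ^ m0 0 * y ^ m0 1 * Polynomial.aeval z g = 0 := by
    rw [← hev, ev_eq, hg, map_sum, Finset.mul_sum]
    refine Finset.sum_congr rfl fun m hm => ?_
    rw [Polynomial.aeval_monomial]
    have h0 := hk0 m hm m0 hm0
    have h1 := hk1 m hm m0 hm0
    rw [← hnn' m hm] at h0 h1
    have hx1 : x ^ m 0 = x ^ m0 0 * (x ^ v') ^ nn m := by
      rw [← zpow_natCast x (m 0), ← zpow_natCast x (m0 0), ← zpow_natCast (x ^ v') (nn m),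
        ← zpow_mul, ← zpow_add₀ hx]
      congr 1
      linarith
    have hy1 : y ^ m 1 = y ^ m0 1 * (y ^ (-u')) ^ nn m := by
      rw [← zpow_natCast y (m 1), ← zpow_natCast y (m0 1), ← zpow_natCast (y ^ (-u')) (nn m),
        ← zpow_mul, ← zpow_add₀ hy]
      congr 1
      linarith
    rw [hx1, hy1, hz, mul_pow]
    ring
  have hzg : Polynomial.aeval z g = 0 := by
    rcases mul_eq_zero.1 haev with h | h
    · exact absurd h (mul_ne_zero (pow_ne_zero _ hx) (pow_ne_zero _ hy))
    · exact h
  have he1 : 1 ≤ e := by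
    by_contra h
    have he0 : e = 0 := by omega
    rw [he0] at hdeg
    have h1 := Polynomial.eq_C_of_natDegree_le_zero hdeg
    rw [h1, Polynomial.aeval_C] at hzg
    have h2 : g.coeff 0 = 0 := (algebraMap ℚ K).injective (by rw [hzg, map_zero])
    rw [h2, Polynomial.C_0] at h1
    exact hg0 h1
  refine ⟨v', -u', e, g, ?_, he1, hg0, hdeg, hzg, ?_, ?_⟩
  · intro h
    rw [Prod.mk.injEq] at h
    rw [h.1, neg_eq_zero.1 h.2] at hbez
    simp at hbez
  · have h0 := hk0 me hme m0 hm0
    rw [← he'] at h0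
    have h1 := (hBd me hme).1
    have h2 := (hBd m0 hm0).1
    have h3 : |(e : ℤ) * v'| ≤ a := by
      rw [← h0, abs_le]
      constructor <;> omega
    rw [abs_mul, Int.abs_natCast] at h3
    have h4 : ((e * v'.natAbs : ℕ) : ℤ) ≤ (a : ℤ) := by
      push_cast
      exact h3
    exact_mod_cast h4
  · have h0 := hk1 me hme m0 hm0
    rw [← he'] at h0
    have h1 := (hBd me hme).2
    have h2 := (hBd m0 hm0).2
    have h3 : |(e : ℤ) * (-u')| ≤ b := by
      rw [← h0, abs_le]
      constructor <;> omega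
    rw [abs_mul, Int.abs_natCast] at h3
    have h4 : ((e * (-u').natAbs : ℕ) : ℤ) ≤ (b : ℤ) := by
      push_cast
      exact h3
    exact_mod_cast h4

end Pool.Agent.N546.RT
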